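import Mathlib
import Pool.Agent.H13.IC.Sc
import Pool.Agent.H13.IC.Sh

/-!
# THEOREM A with ONE embedding (THEOREM IC, MP_8e9775_nt)

As `Pool.Agent.H13.IC.algA`, but the reflection relation is assumed for ONE embedding `s0` only; the
conjugate series only have to converge in the open unit disc. The lower bound comes from the norm:
`1 ≤ |Norm x| ≤ ‖s0 x‖ * house x ^ (D - 1)`, and `house x ≤ (T+1)^2 exp(T) C2^(2T) exp(2 pi eta' n)`.
-/

set_option autoImplicit false

namespace Pool.Agent.H97.ICB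

open Complex PowerSeries NumberField Pool.Agent.H13.IC

/-- a common bound -/
private theorem bd_all {L : Type} [Field L] [NumberField L]
    (u : Fin 3 → PowerSeries (𝓞 L)) (v : (L →+* ℂ) → Fin 3 → PowerSeries ℂ)
    (hu : ∀ (σ : L →+* ℂ) i, Cvg (sg σ (u i))) (hv : ∀ (σ : L →+* ℂ) i, Cvg (v σ i))
    {η : ℝ} (hη : 0 < η) : ∃ B : ℝ, 1 ≤ B ∧ ∀ (σ : L →+* ℂ) (i : Fin 3) (z : ℂ), η ≤ z.im →
      ‖ev (sg σ (u i)) z‖ ≤ B ∧ ‖ev (v σ i) z‖ ≤ B := by
  choose B1 hB1 hb1 using fun (σ : L →+* ℂ) (i : Fin 3) => ev_bdd (hu σ i) hη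
  choose B2 hB2 hb2 using fun (σ : L →+* ℂ) (i : Fin 3) => ev_bdd (hv σ i) hη
  have hnn : ∀ (σ : L →+* ℂ) (i : Fin 3), 0 ≤ B1 σ i + B2 σ i := fun σ i => by
    linarith [hB1 σ i, hB2 σ i]
  have hle : ∀ (σ : L →+* ℂ) (i : Fin 3), B1 σ i + B2 σ i ≤
      ∑ s : (L →+* ℂ), ∑ k : Fin 3, (B1 s k + B2 s k) := by
    intro σ i
    refine le_trans ?_ (Finset.single_le_sum (f := fun s : (L →+* ℂ) =>
      ∑ k : Fin 3, (B1 s k + B2 s k)) (fun s _ => Finset.sum_nonneg fun k _ => hnn s k)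
      (Finset.mem_univ σ))
    exact Finset.single_le_sum (f := fun k : Fin 3 => B1 σ k + B2 σ k) (fun k _ => hnn σ k)
      (Finset.mem_univ i)
  refine ⟨1 + ∑ s : (L →+* ℂ), ∑ k : Fin 3, (B1 s k + B2 s k), ?_, ?_⟩
  · have : 0 ≤ ∑ s : (L →+* ℂ), ∑ k : Fin 3, (B1 s k + B2 s k) :=
      Finset.sum_nonneg fun s _ => Finset.sum_nonneg fun k _ => hnn s k
    linarith
  · intro σ i z hz
    have h1 := hb1 σ i z hz
    have h2 := hb2 σ i z hz
    have h3 := hle σ i
    constructor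
    · linarith [hB2 σ i]
    · linarith [hB1 σ i]

private theorem nonneg_sub {T : ℕ} (i j : Fin (T + 1)) :
    (i : ℕ) + (j : ℕ) + (2 * T - i - j) = 2 * T := by
  have h1 := i.2
  have h2 := j.2
  omega

/-- bound of the values of `pol` -/
private theorem pol_bd {u : Fin 3 → PowerSeries ℂ} (hu : ∀ i, Cvg (u i)) (T : ℕ)
    (p : Fin (T + 1) → Fin (T + 1) → ℂ) {z : ℂ} (hz : 0 < z.im) {P B : ℝ} (hP : 0 ≤ P)
    (hp : ∀ i j, ‖p i j‖ ≤ P) (hB : ∀ i, ‖ev (u i) z‖ ≤ B) :
    ‖ev (pol u T p) z‖ ≤ ((T : ℝ) + 1) ^ 2 * P * B ^ (2 * T) := by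
  have hB0 : 0 ≤ B := (norm_nonneg _).trans (hB 0)
  rw [ev_pol hu T p hz]
  have hterm : ∀ i j : Fin (T + 1),
      ‖p i j * ev (u 0) z ^ (i : ℕ) * ev (u 1) z ^ (j : ℕ) * ev (u 2) z ^ (2 * T - i - j)‖ ≤
        P * B ^ (2 * T) := by
    intro i j
    rw [norm_mul, norm_mul, norm_mul, norm_pow, norm_pow, norm_pow]
    calc ‖p i j‖ * ‖ev (u 0) z‖ ^ (i : ℕ) * ‖ev (u 1) z‖ ^ (j : ℕ) *
          ‖ev (u 2) z‖ ^ (2 * T - i - j)
        ≤ P * B ^ (i : ℕ) * B ^ (j : ℕ) * B ^ (2 * T - i - j) := by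
          gcongr
          · exact hp i j
          · exact hB 0
          · exact hB 1
          · exact hB 2
      _ = P * B ^ ((i : ℕ) + (j : ℕ) + (2 * T - i - j)) := by
          rw [pow_add, pow_add]
          ring
      _ = P * B ^ (2 * T) := by rw [nonneg_sub i j]
  calc _ ≤ ∑ i : Fin (T + 1), ∑ j : Fin (T + 1), P * B ^ (2 * T) := by
        refine (norm_sum_le _ _).trans (Finset.sum_le_sum fun i _ => ?_)
        exact (norm_sum_le _ _).trans (Finset.sum_le_sum fun j _ => hterm i j)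
    _ = ((T : ℝ) + 1) ^ 2 * P * B ^ (2 * T) := by
        simp only [Finset.sum_const, Finset.card_univ, Fintype.card_fin, nsmul_eq_mul]
        push_cast
        ring

/-- the reflection relation of `pol` -/
private theorem pol_RA (M w : ℕ) (hM : 1 ≤ M) {u v : Fin 3 → PowerSeries ℂ}
    (hu : ∀ i, Cvg (u i)) (hv : ∀ i, Cvg (v i)) (hR : ∀ i, Rf M w (u i) (v i)) (T : ℕ)
    (p : Fin (T + 1) → Fin (T + 1) → ℂ) : RA M (2 * T * w) (pol u T p) (pol v T p) := by
  intro z hz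
  have hMR : (0 : ℝ) < M := by exact_mod_cast hM
  have hz0 : z ≠ 0 := by
    intro h
    rw [h] at hz
    simp at hz
  have hz' : 0 < (-1 / ((M : ℂ) * z)).im := by
    have h0 : (M : ℂ) * z ≠ 0 := mul_ne_zero (by exact_mod_cast hMR.ne') hz0
    have h1 : (-1 / ((M : ℂ) * z)) = -((M : ℂ) * z)⁻¹ := by
      rw [neg_div, one_div]
    have h2 : ((M : ℂ) * z).im = M * z.im := by
      simp
    rw [h1, Complex.neg_im, Complex.inv_im, h2, neg_div, neg_neg]
    exact div_pos (mul_pos hMR hz) (Complex.normSq_pos.2 h0)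
  rw [ev_pol hu T p hz', ev_pol hv T p hz]
  have hs : ∑ i : Fin (T + 1), ∑ j : Fin (T + 1),
      p i j * ev (u 0) (-1 / ((M : ℂ) * z)) ^ (i : ℕ) * ev (u 1) (-1 / ((M : ℂ) * z)) ^ (j : ℕ) *
        ev (u 2) (-1 / ((M : ℂ) * z)) ^ (2 * T - i - j) =
      ((((Real.sqrt M : ℝ) : ℂ) * z) ^ (2 * T * w)) * ∑ i : Fin (T + 1), ∑ j : Fin (T + 1),
        p i j * ev (v 0) z ^ (i : ℕ) * ev (v 1) z ^ (j : ℕ) * ev (v 2) z ^ (2 * T - i - j) := by
    rw [Finset.mul_sum]
    refine Finset.sum_congr rfl fun i _ => ?_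
    rw [Finset.mul_sum]
    refine Finset.sum_congr rfl fun j _ => ?_
    rw [hR 0 z hz, hR 1 z hz, hR 2 z hz]
    generalize ((Real.sqrt M : ℝ) : ℂ) * z = s
    have h1 : 2 * T * w = w * (i : ℕ) + w * (j : ℕ) + w * (2 * T - i - j) := by
      rw [← mul_add, ← mul_add, nonneg_sub i j]
      ring
    rw [h1, pow_add, pow_add, mul_pow, mul_pow, mul_pow, ← pow_mul, ← pow_mul, ← pow_mul]
    ring
  rw [hs, norm_mul, norm_pow, norm_mul, Complex.norm_real, Real.norm_eq_abs,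
    abs_of_nonneg (Real.sqrt_nonneg _)]

/-- the final inequality -/
private theorem fin_ineq (C C2 c y1 : ℝ) (w lam T n D : ℕ) (hC : 1 ≤ C) (hC2 : 1 ≤ C2) (hc : 0 < c)
    (hT : 1 ≤ T) (hy1' : 2 * Real.pi * y1 * (D : ℝ) ≤ c / 2)
    (hlam : Real.log 4 + 2 * w * Real.log C + (3 + 2 * Real.log C2) * (D + 1) + 1 ≤ c / 2 * lam)
    (hn : lam * T ≤ n) :
    4 * C ^ (2 * T * w) * (((T : ℝ) + 1) ^ 2 * Real.exp T * C2 ^ (2 * T)) *
      Real.exp (-(c * n)) *
      ((((T : ℝ) + 1) ^ 2 * Real.exp T * C2 ^ (2 * T)) * Real.exp (2 * Real.pi * n * y1)) ^ D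
      < 1 := by
  have hTR : (1 : ℝ) ≤ T := by exact_mod_cast hT
  have hC0 : 0 < C := by linarith
  have hB0 : 0 < C2 := by linarith
  have e1 : (4 : ℝ) ≤ Real.exp (T * Real.log 4) := by
    have h4 : (0 : ℝ) ≤ Real.log 4 := Real.log_nonneg (by norm_num)
    calc (4 : ℝ) = Real.exp (Real.log 4) := (Real.exp_log (by norm_num)).symm
      _ ≤ Real.exp (T * Real.log 4) := by
          refine Real.exp_le_exp.2 ?_
          nlinarith
  have e2 : C ^ (2 * T * w) = Real.exp (T * (2 * w * Real.log C)) := by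
    rw [← Real.exp_log hC0, ← Real.exp_nat_mul, Real.log_exp]
    push_cast
    congr 1
    ring
  have e3 : ((T : ℝ) + 1) ^ 2 ≤ Real.exp (T * 2) := by
    have h5 : (T : ℝ) + 1 ≤ Real.exp T := Real.add_one_le_exp _
    calc ((T : ℝ) + 1) ^ 2 ≤ Real.exp T ^ 2 := pow_le_pow_left₀ (by linarith) h5 2
      _ = Real.exp (T * 2) := by
          rw [← Real.exp_nat_mul]
          congr 1
          push_cast
          ring
  have e4 : C2 ^ (2 * T) = Real.exp (T * (2 * Real.log C2)) := by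
    rw [← Real.exp_log hB0, ← Real.exp_nat_mul, Real.log_exp]
    push_cast
    congr 1
    ring
  have e5 : ((T : ℝ) + 1) ^ 2 * Real.exp T * C2 ^ (2 * T) ≤
      Real.exp (T * (3 + 2 * Real.log C2)) := by
    rw [e4]
    calc ((T : ℝ) + 1) ^ 2 * Real.exp T * Real.exp (T * (2 * Real.log C2))
        ≤ Real.exp (T * 2) * Real.exp T * Real.exp (T * (2 * Real.log C2)) := by gcongr
      _ = Real.exp (T * (3 + 2 * Real.log C2)) := by
          rw [← Real.exp_add, ← Real.exp_add]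
          congr 1
          ring
  calc 4 * C ^ (2 * T * w) * (((T : ℝ) + 1) ^ 2 * Real.exp T * C2 ^ (2 * T)) *
      Real.exp (-(c * n)) *
      ((((T : ℝ) + 1) ^ 2 * Real.exp T * C2 ^ (2 * T)) * Real.exp (2 * Real.pi * n * y1)) ^ D
      ≤ Real.exp (T * Real.log 4) * Real.exp (T * (2 * w * Real.log C)) *
        Real.exp (T * (3 + 2 * Real.log C2)) * Real.exp (-(c * n)) *
        (Real.exp (T * (3 + 2 * Real.log C2)) * Real.exp (2 * Real.pi * n * y1)) ^ D := by
        rw [e2]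
        gcongr
    _ = Real.exp (T * Real.log 4 + T * (2 * w * Real.log C) + T * (3 + 2 * Real.log C2) +
          -(c * n) + D * (T * (3 + 2 * Real.log C2) + 2 * Real.pi * n * y1)) := by
        rw [← Real.exp_add, ← Real.exp_add, ← Real.exp_add, ← Real.exp_add, ← Real.exp_nat_mul,
          ← Real.exp_add]
    _ < Real.exp 0 := by
        refine Real.exp_lt_exp.2 ?_
        have hnR : (lam : ℝ) * T ≤ n := by exact_mod_cast hn
        have h1 : c / 2 * (lam * T) ≤ c / 2 * n := mul_le_mul_of_nonneg_left hnR (by positivity)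
        have h2 := mul_le_mul_of_nonneg_right hlam (show (0 : ℝ) ≤ T by linarith)
        have h3 := mul_le_mul_of_nonneg_right hy1' (Nat.cast_nonneg (α := ℝ) n)
        nlinarith
    _ = 1 := Real.exp_zero

theorem algA1 {L : Type} [Field L] [NumberField L] (s0 : L →+* ℂ) (M : ℕ) (hM : 1 ≤ M) (w : ℕ)
    (u : Fin 3 → PowerSeries (𝓞 L)) (v : Fin 3 → PowerSeries ℂ)
    (hu : ∀ (σ : L →+* ℂ) i, Cvg (sg σ (u i))) (hv : ∀ i, Cvg (v i))
    (hR : ∀ i, Rf M w (sg s0 (u i)) (v i)) :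
    ∃ (T : ℕ) (p : Fin (T + 1) → Fin (T + 1) → 𝓞 L), (∃ i j, p i j ≠ 0) ∧ pol u T p = 0 := by
  obtain ⟨η, C, c, hη, -, hC, hc, hstep⟩ := stepC M hM
  set D : ℕ := Module.finrank ℚ L with hDdef
  have hD1 : 1 ≤ D := Module.finrank_pos
  have hD0 : (0 : ℝ) < D := by exact_mod_cast hD1
  have hpi := Real.pi_pos
  set y1 : ℝ := min η (c / (4 * Real.pi * D)) with hy1def
  have hy1 : 0 < y1 := lt_min hη (by positivity)
  have hy1y : y1 ≤ η := min_le_left _ _
  have hy1c : 2 * Real.pi * y1 * ((D - 1 : ℕ) : ℝ) ≤ c / 2 := by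
    have h1 : y1 ≤ c / (4 * Real.pi * D) := min_le_right _ _
    have h2 : ((D - 1 : ℕ) : ℝ) ≤ D := by exact_mod_cast Nat.sub_le D 1
    calc 2 * Real.pi * y1 * ((D - 1 : ℕ) : ℝ) ≤ 2 * Real.pi * (c / (4 * Real.pi * D)) * D := by
          gcongr
      _ = c / 2 := by field_simp; ring
  obtain ⟨C2, hC2, hbd⟩ := bd_all u (fun _ => v) hu (fun _ => hv) hy1
  obtain ⟨lam0, hlam0⟩ := exists_nat_ge
    ((Real.log 4 + 2 * w * Real.log C + (3 + 2 * Real.log C2) * ((D - 1 : ℕ) + 1) + 1) / (c / 2))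
  have hlam : Real.log 4 + 2 * w * Real.log C + (3 + 2 * Real.log C2) * ((D - 1 : ℕ) + 1) + 1 ≤
      c / 2 * ((lam0 + 1 : ℕ) : ℝ) := by
    rw [div_le_iff₀ (by positivity)] at hlam0
    push_cast at hlam0 ⊢
    nlinarith
  obtain ⟨T0, hT0⟩ := poly_small u hu (lam0 + 1) (by omega)
  obtain ⟨p, hne, hvan, hsm⟩ := hT0 (max 1 T0) (le_max_right _ _)
  have hT1 : 1 ≤ max 1 T0 := le_max_left _ _
  generalize max 1 T0 = T at p hne hvan hsm hT1
  refine ⟨T, p, hne, ?_⟩
  have hTR : (1 : ℝ) ≤ T := by exact_mod_cast hT1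
  have hcf : ∀ (σ : L →+* ℂ) k, coeff k (pol (fun i => sg σ (u i)) T
      (fun i j => σ (algebraMap (𝓞 L) L (p i j)))) =
      σ (algebraMap (𝓞 L) L (coeff k (pol u T p))) := by
    intro σ k
    have hH : sg σ (pol u T p) = pol (fun i => sg σ (u i)) T
        (fun i j => σ (algebraMap (𝓞 L) L (p i j))) := sg_pol σ u T p
    rw [← hH]
    unfold sg
    rw [PowerSeries.coeff_map]
    rfl
  have hhouse : ∀ n, house (algebraMap (𝓞 L) L (coeff n (pol u T p))) ≤
      (((T : ℝ) + 1) ^ 2 * Real.exp T * C2 ^ (2 * T)) * Real.exp (2 * Real.pi * n * y1) := by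
    intro n
    rw [house, pi_norm_le_iff_of_nonneg (by positivity)]
    intro σ
    have h1 : (canonicalEmbedding L) (algebraMap (𝓞 L) L (coeff n (pol u T p))) σ =
        coeff n (pol (fun i => sg σ (u i)) T (fun i j => σ (algebraMap (𝓞 L) L (p i j)))) := by
      rw [hcf σ n]
      rfl
    rw [h1]
    exact cauchy_ev (Cvg.pol (u := fun i => sg σ (u i)) (fun i => hu σ i) T _) hy1
      (fun z hz => pol_bd (fun i => hu σ i) T _ (hz ▸ hy1) (Real.exp_pos _).le
        (fun i j => hsm i j σ) (fun i => (hbd σ i z hz.ge).1)) n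
  have hclaim : ∀ n, coeff n (pol u T p) = 0 := by
    intro n
    induction n using Nat.strong_induction_on with
    | _ n ih =>
      rcases Nat.lt_or_ge n ((lam0 + 1) * T) with hn | hn
      · exact hvan n hn
      · by_contra hx
        have hB1 : (1 : ℝ) ≤ ((T : ℝ) + 1) ^ 2 * Real.exp T * C2 ^ (2 * T) := by
          have h1 : (1 : ℝ) ≤ ((T : ℝ) + 1) ^ 2 := one_le_pow₀ (by linarith)
          have h2 : (1 : ℝ) ≤ Real.exp T := Real.one_le_exp (by linarith)
          have h3 : (1 : ℝ) ≤ C2 ^ (2 * T) := one_le_pow₀ hC2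
          exact one_le_mul_of_one_le_of_one_le (one_le_mul_of_one_le_of_one_le h1 h2) h3
        have hfin := hstep (2 * T * w) _ _ _ n
          (Cvg.pol (u := fun i => sg s0 (u i)) (fun i => hu s0 i) T
            (fun i j => s0 (algebraMap (𝓞 L) L (p i j))))
          (Cvg.pol (u := v) (fun i => hv i) T
            (fun i j => s0 (algebraMap (𝓞 L) L (p i j))))
          (pol_RA M w hM (fun i => hu s0 i) (fun i => hv i) (fun i => hR i) T _)
          hB1
          (fun z hz => pol_bd (fun i => hu s0 i) T _ (hz ▸ hη) (Real.exp_pos _).le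
            (fun i j => hsm i j s0) (fun i => (hbd s0 i z (hy1y.trans hz.ge)).1))
          (fun z hz => pol_bd (fun i => hv i) T _ (hz ▸ hη) (Real.exp_pos _).le
            (fun i j => hsm i j s0) (fun i => (hbd s0 i z (hy1y.trans hz.ge)).2))
          (fun k hk => by rw [hcf s0 k, ih k hk, map_zero, map_zero])
        rw [hcf s0 n] at hfin
        set al : 𝓞 L := coeff n (pol u T p) with hal
        have hnorm : 1 ≤ ‖Algebra.norm ℚ (al : L)‖ := by
          have h0 : Algebra.norm ℤ al ≠ 0 := Algebra.norm_ne_zero_iff.2 hx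
          have h1 : ((Algebra.norm ℤ al : ℤ) : ℚ) = Algebra.norm ℚ (al : L) :=
            Algebra.coe_norm_int al
          rw [← h1]
          have h2 : (1 : ℤ) ≤ |Algebra.norm ℤ al| := Int.one_le_abs h0
          have h3 : ‖((Algebra.norm ℤ al : ℤ) : ℚ)‖ = ((|Algebra.norm ℤ al| : ℤ) : ℝ) := by
            rw [← Rat.norm_cast_real, Real.norm_eq_abs]
            push_cast
            rfl
          rw [h3]
          exact_mod_cast h2
        have h2 := norm_norm_le_norm_mul_house_pow (al : L) s0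
        have h4 : house (al : L) ^ (D - 1) ≤
            ((((T : ℝ) + 1) ^ 2 * Real.exp T * C2 ^ (2 * T)) *
              Real.exp (2 * Real.pi * n * y1)) ^ (D - 1) :=
          pow_le_pow_left₀ (house_nonneg _) (hhouse n) _
        have h5 := fin_ineq C C2 c y1 w (lam0 + 1) T n (D - 1) hC hC2 hc hT1 hy1c hlam hn
        have h6 : ‖s0 (al : L)‖ * house (al : L) ^ (D - 1) ≤
            4 * C ^ (2 * T * w) * (((T : ℝ) + 1) ^ 2 * Real.exp T * C2 ^ (2 * T)) *
              Real.exp (-(c * n)) *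
            ((((T : ℝ) + 1) ^ 2 * Real.exp T * C2 ^ (2 * T)) *
              Real.exp (2 * Real.pi * n * y1)) ^ (D - 1) :=
          mul_le_mul hfin h4 (pow_nonneg (house_nonneg _) _) (by positivity)
        linarith
  ext n
  rw [hclaim n, map_zero]

end Pool.Agent.H97.ICB
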