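import Mathlib
import Pool.Agent.H13.IC.Am
import Pool.Agent.H13.IC.Ho
import Pool.Agent.H13.IC.In
import Pool.Agent.H13.IC.Ob
import Pool.Agent.H13.IC.Oc
import Pool.Agent.H97.ICB.Am1

/-!
# Finite orbit with ONE embedding (THEOREM IC, MP_8e9775_nt)

As `Pool.Agent.H13.IC.finite_orbit`, with the reflection relation for one embedding only.
-/

set_option autoImplicit false

namespace Pool.Agent.H97.ICB

open Pool.Agent.H13.IC
open Complex PowerSeries NumberField UpperHalfPlane MatrixGroups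

private theorem im_pos' {M : ℕ} (hM : 1 ≤ M) {z : ℂ} (hz : 0 < z.im) :
    0 < (-1 / ((M : ℂ) * z)).im := by
  have hz0 : z ≠ 0 := by
    rintro rfl
    simp at hz
  have hM0 : (0 : ℝ) < M := by exact_mod_cast hM
  have hMC : (M : ℂ) ≠ 0 := by exact_mod_cast (by omega : M ≠ 0)
  have e : (-1 / ((M : ℂ) * z)) = ((1 / M : ℝ) : ℂ) * (-(z⁻¹)) := by
    push_cast
    field_simp
  rw [e, Complex.im_ofReal_mul, Complex.neg_im, Complex.inv_im]
  have : 0 < Complex.normSq z := Complex.normSq_pos.2 hz0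
  have e2 : -(-z.im / Complex.normSq z) = z.im / Complex.normSq z := by ring
  rw [e2]
  positivity

private theorem Rf_pow {M w : ℕ} (hM : 1 ≤ M) {u v : PowerSeries ℂ} (hu : Cvg u) (hv : Cvg v)
    (h : Rf M w u v) (n : ℕ) : Rf M (w * n) (u ^ n) (v ^ n) := by
  intro z hz
  rw [ev_pow hu n (im_pos' hM hz), ev_pow hv n hz, h z hz, mul_pow, ← pow_mul]

private theorem sl_eq (k : ℕ) (f : ℍ → ℂ) (γ : SL(2, ℤ)) (τ : ℍ) :
    f (γ • τ) = ((γ 1 0 : ℂ) * τ + (γ 1 1 : ℂ)) ^ k * sl k f γ τ := by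
  unfold sl
  rw [mul_div_cancel₀ _ (pow_ne_zero k (den_ne γ τ))]

/-- the coefficients of the equation -/
private noncomputable def cc (k T : ℕ) (q : Fin (T + 1) → Fin (T + 1) → ℂ) (e e' : ℍ → ℂ)
    (i : Fin (T + 1)) (τ : ℍ) : ℂ :=
  ∑ j : Fin (T + 1), q i j * ((fH (E4 ℂ) τ * e τ) ^ (3 * k)) ^ (j : ℕ) *
    ((fH (E6 ℂ) τ * e' τ) ^ (2 * k)) ^ (2 * T - i - j)

private theorem hol_cc (k T : ℕ) (q : Fin (T + 1) → Fin (T + 1) → ℂ) {e e' : ℍ → ℂ} (he : Hol e)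
    (he' : Hol e') (i : Fin (T + 1)) : Hol (cc k T q e e' i) := by
  have h4 := hol_fH E4_cvg
  have h6 := hol_fH E6_cvg
  unfold Hol at *
  have e1 : cc k T q e e' i ∘ UpperHalfPlane.ofComplex = fun z => ∑ j : Fin (T + 1), q i j *
      (((fH (E4 ℂ) ∘ UpperHalfPlane.ofComplex) z * (e ∘ UpperHalfPlane.ofComplex) z) ^ (3 * k)) ^
        (j : ℕ) *
      (((fH (E6 ℂ) ∘ UpperHalfPlane.ofComplex) z * (e' ∘ UpperHalfPlane.ofComplex) z) ^ (2 * k)) ^
        (2 * T - i - j) := rfl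
  rw [e1]
  refine DifferentiableOn.fun_sum fun j _ => ?_
  exact ((differentiableOn_const (q i j)).mul (((h4.mul he).pow _).pow _)).mul
    (((h6.mul he').pow _).pow _)

/-- the values at `γ τ` -/
private theorem ev_GM (M : ℕ) (hM : 1 ≤ M) (γ : SL(2, ℤ)) (τ : ℍ) :
    ev (GM ℂ M) ((γ • τ : ℍ) : ℂ) = ((γ 1 0 : ℂ) * τ + (γ 1 1 : ℂ)) ^ 8 *
      (fH (E4 ℂ) τ * sl 4 (fH (dil M (E4 ℂ))) γ τ) := by
  have h := sl_eq 4 (fH (dil M (E4 ℂ))) γ τ
  unfold GM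
  rw [ev_mul E4_cvg (dil_cvg E4_cvg M hM) (γ • τ).im_pos, E4_mod]
  have h' : ev (dil M (E4 ℂ)) ((γ • τ : ℍ) : ℂ) = fH (dil M (E4 ℂ)) (γ • τ) := rfl
  rw [h', h]
  have h2 : ev (E4 ℂ) (τ : ℂ) = fH (E4 ℂ) τ := rfl
  rw [h2]
  ring

private theorem ev_DM (M : ℕ) (hM : 1 ≤ M) (γ : SL(2, ℤ)) (τ : ℍ) :
    ev (DM ℂ M) ((γ • τ : ℍ) : ℂ) = ((γ 1 0 : ℂ) * τ + (γ 1 1 : ℂ)) ^ 12 *
      (fH (E6 ℂ) τ * sl 6 (fH (dil M (E6 ℂ))) γ τ) := by
  have h := sl_eq 6 (fH (dil M (E6 ℂ))) γ τ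
  unfold DM
  rw [ev_mul E6_cvg (dil_cvg E6_cvg M hM) (γ • τ).im_pos, E6_mod]
  have h' : ev (dil M (E6 ℂ)) ((γ • τ : ℍ) : ℂ) = fH (dil M (E6 ℂ)) (γ • τ) := rfl
  rw [h', h]
  have h2 : ev (E6 ℂ) (τ : ℂ) = fH (E6 ℂ) τ := rfl
  rw [h2]
  ring

theorem finite_orbit1 {L : Type} [Field L] [NumberField L] (M : ℕ) (hM : 1 ≤ M) (k : ℕ)
    (hk : 1 ≤ k) (u : PowerSeries (𝓞 L)) (v : PowerSeries ℂ)
    (hu : ∀ σ : L →+* ℂ, Cvg (sg σ u)) (hv : Cvg v) (σ : L →+* ℂ)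
    (hR : Rf M k (sg σ u) v) :
    (Set.range (sl k (fH (sg σ u)))).Finite := by
  have hg : ∀ σ : L →+* ℂ, ∀ n : ℕ, sg σ (GM (𝓞 L) M ^ n) = GM ℂ M ^ n := by
    intro σ n
    rw [map_pow, sg_GM]
  have hd : ∀ σ : L →+* ℂ, ∀ n : ℕ, sg σ (DM (𝓞 L) M ^ n) = DM ℂ M ^ n := by
    intro σ n
    rw [map_pow, sg_DM]
  obtain ⟨T, p, ⟨i0, j0, hp0⟩, hpol⟩ := algA1 σ M hM (24 * k)
    ![u ^ 24, GM (𝓞 L) M ^ (3 * k), DM (𝓞 L) M ^ (2 * k)]
    ![v ^ 24, GM ℂ M ^ (3 * k), DM ℂ M ^ (2 * k)]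
    (by
      intro σ i
      fin_cases i
      · change Cvg (sg σ (u ^ 24))
        rw [map_pow]
        exact (hu σ).pow 24
      · change Cvg (sg σ (GM (𝓞 L) M ^ (3 * k)))
        rw [hg]
        exact (GM_cvg M hM).pow _
      · change Cvg (sg σ (DM (𝓞 L) M ^ (2 * k)))
        rw [hd]
        exact (DM_cvg M hM).pow _)
    (by
      intro i
      fin_cases i
      · exact hv.pow 24
      · exact (GM_cvg M hM).pow _
      · exact (DM_cvg M hM).pow _)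
    (by
      intro i
      fin_cases i
      · change Rf M (24 * k) (sg σ (u ^ 24)) (v ^ 24)
        rw [map_pow, mul_comm 24 k]
        exact Rf_pow hM (hu σ) hv hR 24
      · change Rf M (24 * k) (sg σ (GM (𝓞 L) M ^ (3 * k))) (GM ℂ M ^ (3 * k))
        rw [hg, show 24 * k = 8 * (3 * k) by ring]
        exact Rf_pow hM (GM_cvg M hM) (GM_cvg M hM) (GM_Rf M hM) _
      · change Rf M (24 * k) (sg σ (DM (𝓞 L) M ^ (2 * k))) (DM ℂ M ^ (2 * k))
        rw [hd, show 24 * k = 12 * (2 * k) by ring]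
        exact Rf_pow hM (DM_cvg M hM) (DM_cvg M hM) (DM_Rf M hM) _)
  set q : Fin (T + 1) → Fin (T + 1) → ℂ := fun i j => σ (algebraMap (𝓞 L) L (p i j)) with hq
  set E : SL(2, ℤ) → (ℍ → ℂ) × (ℍ → ℂ) := fun γ =>
    (sl 4 (fH (dil M (E4 ℂ))) γ, sl 6 (fH (dil M (E6 ℂ))) γ) with hE
  have hfin : (Set.range E).Finite := finite_pairs M hM
  have hHolE : ∀ γ, Hol (E γ).1 ∧ Hol (E γ).2 := fun γ =>
    ⟨hol_sl 4 (hol_fH (dil_cvg E4_cvg M hM)) γ, hol_sl 6 (hol_fH (dil_cvg E6_cvg M hM)) γ⟩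
  -- the equation
  have heq : ∀ γ : SL(2, ℤ), ∀ τ : ℍ, ∑ i : Fin (T + 1), cc k T q (E γ).1 (E γ).2 i τ *
      sl k (fH (sg σ u)) γ τ ^ (24 * (i : ℕ)) = 0 := by
    intro γ τ
    set J : ℂ := (γ 1 0 : ℂ) * τ + (γ 1 1 : ℂ) with hJ
    have hJ0 : J ≠ 0 := den_ne γ τ
    have h0 : ev (sg σ (pol ![u ^ 24, GM (𝓞 L) M ^ (3 * k), DM (𝓞 L) M ^ (2 * k)] T p))
        ((γ • τ : ℍ) : ℂ) = 0 := by
      rw [hpol, map_zero]
      simp [ev, evq]
    rw [sg_pol, ev_pol (by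
      intro i
      fin_cases i
      · change Cvg (sg σ (u ^ 24))
        rw [map_pow]
        exact (hu σ).pow 24
      · change Cvg (sg σ (GM (𝓞 L) M ^ (3 * k)))
        rw [hg]
        exact (GM_cvg M hM).pow _
      · change Cvg (sg σ (DM (𝓞 L) M ^ (2 * k)))
        rw [hd]
        exact (DM_cvg M hM).pow _) T _ (γ • τ).im_pos] at h0
    have a0 : ev (sg σ (![u ^ 24, GM (𝓞 L) M ^ (3 * k), DM (𝓞 L) M ^ (2 * k)] 0))
        ((γ • τ : ℍ) : ℂ) = J ^ (24 * k) * (sl k (fH (sg σ u)) γ τ) ^ 24 := by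
      change ev (sg σ (u ^ 24)) ((γ • τ : ℍ) : ℂ) = _
      rw [map_pow, ev_pow (hu σ) 24 (γ • τ).im_pos]
      have h1 : ev (sg σ u) ((γ • τ : ℍ) : ℂ) = fH (sg σ u) (γ • τ) := rfl
      rw [h1, sl_eq k (fH (sg σ u)) γ τ, mul_pow, ← pow_mul, mul_comm k 24]
    have a1 : ev (sg σ (![u ^ 24, GM (𝓞 L) M ^ (3 * k), DM (𝓞 L) M ^ (2 * k)] 1))
        ((γ • τ : ℍ) : ℂ) = J ^ (24 * k) * (fH (E4 ℂ) τ * (E γ).1 τ) ^ (3 * k) := by
      change ev (sg σ (GM (𝓞 L) M ^ (3 * k))) ((γ • τ : ℍ) : ℂ) = _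
      rw [hg, ev_pow (GM_cvg M hM) _ (γ • τ).im_pos, ev_GM M hM γ τ, mul_pow, ← pow_mul,
        show 8 * (3 * k) = 24 * k by ring]
    have a2 : ev (sg σ (![u ^ 24, GM (𝓞 L) M ^ (3 * k), DM (𝓞 L) M ^ (2 * k)] 2))
        ((γ • τ : ℍ) : ℂ) = J ^ (24 * k) * (fH (E6 ℂ) τ * (E γ).2 τ) ^ (2 * k) := by
      change ev (sg σ (DM (𝓞 L) M ^ (2 * k))) ((γ • τ : ℍ) : ℂ) = _
      rw [hd, ev_pow (DM_cvg M hM) _ (γ • τ).im_pos, ev_DM M hM γ τ, mul_pow, ← pow_mul,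
        show 12 * (2 * k) = 24 * k by ring]
    rw [a0, a1, a2] at h0
    have h1 : J ^ (24 * k * (2 * T)) * ∑ i : Fin (T + 1), cc k T q (E γ).1 (E γ).2 i τ *
        sl k (fH (sg σ u)) γ τ ^ (24 * (i : ℕ)) = 0 := by
      rw [← h0, Finset.mul_sum]
      refine Finset.sum_congr rfl fun i _ => ?_
      unfold cc
      rw [Finset.sum_mul, Finset.mul_sum]
      refine Finset.sum_congr rfl fun j _ => ?_
      have hij : 2 * T = (i : ℕ) + (j : ℕ) + (2 * T - i - j) := by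
        have := i.2
        have := j.2
        omega
      have e1 : J ^ (24 * k * (2 * T)) = (J ^ (24 * k)) ^ (i : ℕ) * (J ^ (24 * k)) ^ (j : ℕ) *
          (J ^ (24 * k)) ^ (2 * T - i - j) := by
        rw [pow_mul, ← pow_add, ← pow_add, ← hij]
      rw [e1, mul_pow, mul_pow, mul_pow (J ^ (24 * k)), pow_mul (sl k (fH (sg σ u)) γ τ) 24]
      ring
    exact (mul_eq_zero.1 h1).resolve_left (pow_ne_zero _ hJ0)
  -- the coefficients are not all zero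
  have hnz : ∀ γ : SL(2, ℤ), ∃ (i : Fin (T + 1)) (τ : ℍ), cc k T q (E γ).1 (E γ).2 i τ ≠ 0 := by
    intro γ
    by_contra hcon
    push Not at hcon
    have hall := hcon i0
    set p' : Fin (T + 1) → Fin (T + 1) → 𝓞 L := fun i j => if i = i0 then p i0 j else 0 with hp'
    set Q : PowerSeries (𝓞 L) :=
      pol ![1, GM (𝓞 L) M ^ (3 * k), DM (𝓞 L) M ^ (2 * k)] T p' with hQ
    have hQe : Q = ∑ j : Fin (T + 1), PowerSeries.C (p i0 j) * (GM (𝓞 L) M ^ (3 * k)) ^ (j : ℕ) *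
        (DM (𝓞 L) M ^ (2 * k)) ^ (2 * T - i0 - j) := by
      rw [hQ]
      unfold pol
      rw [Finset.sum_eq_single i0]
      · refine Finset.sum_congr rfl fun j _ => ?_
        have e1 : p' i0 j = p i0 j := by simp [hp']
        rw [e1]
        change PowerSeries.C (p i0 j) * (1 : PowerSeries (𝓞 L)) ^ (i0 : ℕ) * _ * _ = _
        rw [one_pow, mul_one]
        rfl
      · intro i _ hi
        refine Finset.sum_eq_zero fun j _ => ?_
        have e1 : p' i j = 0 := by simp [hp', hi]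
        rw [e1, map_zero, zero_mul, zero_mul, zero_mul]
      · intro h
        exact absurd (Finset.mem_univ _) h
    have hQ0 : Q ≠ 0 := by
      intro h0
      rw [hQe] at h0
      have h1 := ind (GM (𝓞 L) M ^ (3 * k)) (DM (𝓞 L) M ^ (2 * k)) (GM_zero _ M _) (DM_zero _ M _)
        (ne_coeff _ M hM k hk) T (2 * T - i0) (by have := i0.2; omega) (p i0) h0
      exact hp0 (congrFun h1 j0)
    have hCv : ∀ i : Fin 3, Cvg (sg σ (![1, GM (𝓞 L) M ^ (3 * k), DM (𝓞 L) M ^ (2 * k)] i)) := by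
      intro i
      fin_cases i
      · change Cvg (sg σ 1)
        rw [map_one]
        exact Cvg.one
      · change Cvg (sg σ (GM (𝓞 L) M ^ (3 * k)))
        rw [hg]
        exact (GM_cvg M hM).pow _
      · change Cvg (sg σ (DM (𝓞 L) M ^ (2 * k)))
        rw [hd]
        exact (DM_cvg M hM).pow _
    have hzero : sg σ Q = 0 := by
      have hc0 : Cvg (0 : PowerSeries ℂ) := by
        have := Cvg.C 0
        rwa [map_zero] at this
      refine ev_unique ?_ hc0 ?_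
      · rw [hQ, sg_pol]
        exact Cvg.pol hCv T _
      intro z hz
      have hz0 : ev (0 : PowerSeries ℂ) z = 0 := by simp [ev, evq]
      rw [hz0]
      set τ : ℍ := γ⁻¹ • (⟨z, hz⟩ : ℍ) with hτ
      have hγτ : γ • τ = (⟨z, hz⟩ : ℍ) := by rw [hτ, smul_inv_smul]
      have hzz : z = ((γ • τ : ℍ) : ℂ) := by rw [hγτ]
      set J : ℂ := (γ 1 0 : ℂ) * τ + (γ 1 1 : ℂ) with hJ
      rw [hQ, sg_pol, hzz, ev_pol hCv T _ (γ • τ).im_pos]
      have a0 : ev (sg σ (![1, GM (𝓞 L) M ^ (3 * k), DM (𝓞 L) M ^ (2 * k)] 0))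
          ((γ • τ : ℍ) : ℂ) = 1 := by
        change ev (sg σ 1) ((γ • τ : ℍ) : ℂ) = _
        rw [map_one]
        exact evq_one _
      have a1 : ev (sg σ (![1, GM (𝓞 L) M ^ (3 * k), DM (𝓞 L) M ^ (2 * k)] 1))
          ((γ • τ : ℍ) : ℂ) = J ^ (24 * k) * (fH (E4 ℂ) τ * (E γ).1 τ) ^ (3 * k) := by
        change ev (sg σ (GM (𝓞 L) M ^ (3 * k))) ((γ • τ : ℍ) : ℂ) = _
        rw [hg, ev_pow (GM_cvg M hM) _ (γ • τ).im_pos, ev_GM M hM γ τ, mul_pow, ← pow_mul,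
          show 8 * (3 * k) = 24 * k by ring]
      have a2 : ev (sg σ (![1, GM (𝓞 L) M ^ (3 * k), DM (𝓞 L) M ^ (2 * k)] 2))
          ((γ • τ : ℍ) : ℂ) = J ^ (24 * k) * (fH (E6 ℂ) τ * (E γ).2 τ) ^ (2 * k) := by
        change ev (sg σ (DM (𝓞 L) M ^ (2 * k))) ((γ • τ : ℍ) : ℂ) = _
        rw [hd, ev_pow (DM_cvg M hM) _ (γ • τ).im_pos, ev_DM M hM γ τ, mul_pow, ← pow_mul,
          show 12 * (2 * k) = 24 * k by ring]
      rw [a0, a1, a2, Finset.sum_eq_single i0]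
      · have h2 := hall τ
        have h3 : J ^ (24 * k * (2 * T - i0)) * cc k T q (E γ).1 (E γ).2 i0 τ = 0 := by
          rw [h2, mul_zero]
        rw [← h3]
        unfold cc
        rw [Finset.mul_sum]
        refine Finset.sum_congr rfl fun j _ => ?_
        have hij : 2 * T - i0 = (j : ℕ) + (2 * T - i0 - j) := by
          have := i0.2
          have := j.2
          omega
        have e1 : J ^ (24 * k * (2 * T - i0)) = (J ^ (24 * k)) ^ (j : ℕ) *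
            (J ^ (24 * k)) ^ (2 * T - i0 - j) := by
          rw [pow_mul, ← pow_add, ← hij]
        have e2 : σ (algebraMap (𝓞 L) L (p' i0 j)) = q i0 j := by simp [hp', hq]
        rw [e1, mul_pow (J ^ (24 * k)), mul_pow (J ^ (24 * k)), e2, one_pow]
        ring
      · intro i _ hi
        refine Finset.sum_eq_zero fun j _ => ?_
        have e1 : p' i j = 0 := by simp [hp', hi]
        rw [e1, map_zero, map_zero, zero_mul, zero_mul, zero_mul]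
      · intro h
        exact absurd (Finset.mem_univ _) h
    apply hQ0
    refine PowerSeries.ext fun n => ?_
    have h1 : coeff n (sg σ Q) = 0 := by rw [hzero, map_zero]
    unfold sg at h1
    rw [PowerSeries.coeff_map] at h1
    have h2 : algebraMap (𝓞 L) L (coeff n Q) = 0 := by
      apply σ.injective
      rw [map_zero]
      exact h1
    rw [map_zero]
    exact (map_eq_zero_iff _ (FaithfulSMul.algebraMap_injective (𝓞 L) L)).1 h2
  -- conclusion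
  have hbig : (⋃ P ∈ Set.range E, {g : ℍ → ℂ | Hol g ∧ ∀ τ, ∑ i : Fin (T + 1),
      cc k T q P.1 P.2 i τ * g τ ^ (24 * (i : ℕ)) = 0}).Finite := by
    refine hfin.biUnion ?_
    rintro P ⟨γ, rfl⟩
    exact finite_roots T 24 (by norm_num) (cc k T q (E γ).1 (E γ).2)
      (fun i => hol_cc k T q (hHolE γ).1 (hHolE γ).2 i) (hnz γ)
  refine hbig.subset ?_
  rintro g ⟨γ, rfl⟩
  refine Set.mem_biUnion (Set.mem_range_self γ) ?_
  exact ⟨hol_sl k (hol_fH (hu σ)) γ, heq γ⟩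

end Pool.Agent.H97.ICB
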