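import Mathlib
import Pool.Agent.H13.IC.Fj
import Pool.Agent.H97.ICB.Oc1

/-!
# THEOREM IC (MP_8e9775_nt) with ONE embedding and bounded denominators

Only the element `F` itself is assumed to be in the Selberg class. Its coefficients are
`a(n) = σ(A(n)) n ^ (-(k-1)/2)` with `m A(n)` integral in the number field `L`, and all conjugates of
`A(n)` grow subexponentially.
-/

set_option autoImplicit false

namespace Pool.Agent.H97.ICB

open Complex NumberField UpperHalfPlane MatrixGroups Pool.Agent.H11.Selberg Pool.Agent.H11.SC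
open Pool.Agent.H13.IC

/-- all conjugates of `A(n)` grow subexponentially -/
def Sub {L : Type} [Field L] (A : ℕ → L) : Prop :=
  ∀ τ : L →+* ℂ, ∀ δ : ℝ, 0 < δ → ∃ C : ℝ, ∀ n : ℕ, ‖τ (A n)‖ ≤ C * Real.exp (δ * n)

theorem cvg_of_sub {L : Type} [Field L] [NumberField L] (A : ℕ → L) (m : ℕ)
    (hA : ∀ n, 1 ≤ n → IsIntegral ℤ ((m : L) * A n)) (hs : Sub A) (τ : L →+* ℂ) :
    Cvg (sg τ (bco A m hA)) := by
  intro r hr0 hr1
  obtain ⟨ρ, hρ1, hρ2⟩ := exists_between hr1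
  have hρ0 : 0 < ρ := hr0.trans_lt hρ1
  set δ : ℝ := -Real.log ρ with hδ
  have hδ0 : 0 < δ := by
    rw [hδ]
    have := Real.log_neg hρ0 hρ2
    linarith
  obtain ⟨C, hC⟩ := hs τ δ hδ0
  have hC0 : 0 ≤ C := by
    have h := (norm_nonneg _).trans (hC 0)
    simpa using h
  have hq : r / ρ < 1 := by
    rw [div_lt_one hρ0]
    exact hρ1
  have hq0 : 0 ≤ r / ρ := div_nonneg hr0 hρ0.le
  refine Summable.of_nonneg_of_le (fun n => mul_nonneg (norm_nonneg _) (pow_nonneg hr0 n)) ?_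
    ((summable_geometric_of_lt_one hq0 hq).mul_left ((m : ℝ) * C))
  intro n
  have hexp : Real.exp (δ * n) = (1 / ρ) ^ n := by
    rw [mul_comm, Real.exp_nat_mul, hδ, Real.exp_neg, Real.exp_log hρ0, one_div]
  have h1 : ‖PowerSeries.coeff n (sg τ (bco A m hA))‖ ≤ (m : ℝ) * C * (1 / ρ) ^ n := by
    unfold sg bco
    rw [PowerSeries.coeff_map, PowerSeries.coeff_mk]
    by_cases hn : n = 0
    · rw [dif_pos hn, map_zero, norm_zero]
      positivity
    · rw [dif_neg hn]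
      change ‖τ ((m : L) * A n)‖ ≤ _
      rw [map_mul, map_natCast, norm_mul, Complex.norm_natCast, mul_assoc]
      refine mul_le_mul_of_nonneg_left ?_ (Nat.cast_nonneg m)
      rw [← hexp]
      exact hC n
  calc ‖PowerSeries.coeff n (sg τ (bco A m hA))‖ * r ^ n
      ≤ ((m : ℝ) * C * (1 / ρ) ^ n) * r ^ n := mul_le_mul_of_nonneg_right h1 (pow_nonneg hr0 n)
    _ = (m : ℝ) * C * (r / ρ) ^ n := by
        rw [mul_assoc, ← mul_pow]
        congr 2
        ring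

private theorem ev_Cm {u : PowerSeries ℂ} (hu : Cvg u) (c : ℂ) {z : ℂ} (hz : 0 < z.im) :
    ev (PowerSeries.C c * u) z = c * ev u z := by
  rw [ev_mul (Cvg.C c) hu hz]
  congr 1
  exact evq_C c _

private theorem cj_ram' {a : ℕ → ℂ}
    (ha : ∀ δ : ℝ, 0 < δ → ∃ C : ℝ, ∀ n : ℕ, 1 ≤ n → ‖a n‖ ≤ C * (n : ℝ) ^ δ) :
    ∀ δ : ℝ, 0 < δ → ∃ C : ℝ, ∀ n : ℕ, 1 ≤ n → ‖cj a n‖ ≤ C * (n : ℝ) ^ δ := by
  intro δ hδ
  obtain ⟨C, hC⟩ := ha δ hδ
  refine ⟨C, fun n hn => ?_⟩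
  unfold cj
  rw [RCLike.norm_conj]
  exact hC n hn

private theorem rat_real' (N : ℚ) (hN : 0 < N) :
    (N : ℝ) = ((N.num.natAbs : ℕ) : ℝ) / (N.den : ℝ) := by
  have h1 : ((N.num.natAbs : ℕ) : ℤ) = N.num := Int.natAbs_of_nonneg (Rat.num_pos.mpr hN).le
  have h2 : (((N.num.natAbs : ℕ) : ℤ) : ℝ) = (N.num : ℝ) := by rw [h1]
  rw [← Int.cast_natCast, h2]
  exact Rat.cast_def N

private theorem im_neg {M : ℕ} (hM : 1 ≤ M) {z : ℂ} (hz : 0 < z.im) :
    0 < (-1 / ((M : ℂ) * z)).im := by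
  have hM0 : (0 : ℝ) < (M : ℝ) := by exact_mod_cast hM
  have h1 : -1 / ((M : ℂ) * z) = -((M : ℝ) * z : ℂ)⁻¹ := by
    push_cast
    rw [neg_div, one_div]
  rw [h1, Complex.neg_im, Complex.inv_im, Complex.im_ofReal_mul]
  have h2 : 0 < Complex.normSq ((M : ℝ) * z) := by
    rw [Complex.normSq_pos]
    intro h
    rcases mul_eq_zero.mp h with h | h
    · exact hM0.ne' (by exact_mod_cast h)
    · rw [h] at hz
      simp at hz
  have h3 : 0 < (M : ℝ) * z.im := by positivity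
  have h4 : -(-((M : ℝ) * z.im) / Complex.normSq ((M : ℝ) * z)) =
      ((M : ℝ) * z.im) / Complex.normSq ((M : ℝ) * z) := by ring
  rw [h4]
  positivity

theorem orbit_of3 {L : Type} [Field L] [NumberField L] (σ : L →+* ℂ) (k : ℕ) (hk : 1 ≤ k)
    (N : ℚ) (hN : 0 < N)
    (A : ℕ → L) (m : ℕ) (hm : 1 ≤ m) (hA : ∀ n, 1 ≤ n → IsIntegral ℤ ((m : L) * A n))
    (hs : Sub A) (G : ℂ → ℂ) (ε : ℂ)
    (h : FEq (acl k A σ) G (Real.sqrt N / (2 * Real.pi)) (fun _ : Fin 1 => (1 : ℝ))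
      (fun _ => ((k : ℂ) - 1) / 2) ε) :
    (Set.range (sl k (fH (dil N.den (fser k (acl k A σ)))))).Finite := by
  have hM1 : 1 ≤ N.num.natAbs := by
    have := Rat.num_pos.mpr hN
    omega
  have hb : 1 ≤ N.den := N.den_pos
  have hm0 : (m : ℂ) ≠ 0 := by exact_mod_cast (by omega : m ≠ 0)
  have hc : Cvg (dil N.den (fser k (acl k A σ))) := dil_cvg (fser_cvg k _ h.ram) _ hb
  have hc' : Cvg (PowerSeries.C (ε * (-Complex.I) ^ k) * dil N.den (fser k (cj (acl k A σ)))) :=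
    (Cvg.C _).mul (dil_cvg (fser_cvg k _ (cj_ram' h.ram)) _ hb)
  have hf := finite_orbit1 (N.num.natAbs * N.den) (Nat.mul_pos hM1 hb) k hk
    (dil N.den (bco A m hA))
    (PowerSeries.C (m : ℂ) *
      (PowerSeries.C (ε * (-Complex.I) ^ k) * dil N.den (fser k (cj (acl k A σ)))))
    (by
      intro τ
      unfold sg
      rw [map_dil]
      exact dil_cvg (cvg_of_sub A m hA hs τ) _ hb)
    ((Cvg.C _).mul hc') σ
    (by
      intro z hz
      rw [sg_b k, ev_Cm hc _ (im_neg (Nat.mul_pos hM1 hb) hz), ev_Cm hc' _ hz,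
        Rf_dil k hk N.num.natAbs N.den hM1 hb N (rat_real' N hN) _ G ε h z hz]
      ring)
  have hsl : ∀ γ : SL(2, ℤ), sl k (fH (sg σ (dil N.den (bco A m hA)))) γ =
      fun τ => (m : ℂ) * sl k (fH (dil N.den (fser k (acl k A σ)))) γ τ := by
    intro γ
    funext τ
    unfold sl fH
    rw [sg_b k, ev_Cm hc _ (γ • τ).im_pos]
    ring
  have hinj : Set.InjOn (fun (f : ℍ → ℂ) => fun τ => (m : ℂ) * f τ)
      (Set.range (sl k (fH (dil N.den (fser k (acl k A σ)))))) := by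
    intro f _ g _ hfg
    funext τ
    exact mul_left_cancel₀ hm0 (congrFun hfg τ)
  refine Set.Finite.of_finite_image ?_ hinj
  refine hf.subset ?_
  rintro _ ⟨_, ⟨γ, rfl⟩, rfl⟩
  exact ⟨γ, hsl γ⟩

theorem main3 {L : Type} [Field L] [NumberField L] (σ : L →+* ℂ) (k : ℕ) (hk : 2 ≤ k) (N : ℚ)
    (hN : 0 < N)
    (A : ℕ → L) (m : ℕ) (hm : 1 ≤ m) (hA : ∀ n, 1 ≤ n → IsIntegral ℤ ((m : L) * A n))
    (hs : Sub A) (F : ℂ → ℂ) (ε : ℂ)
    (hS : IsSelberg (acl k A σ) F) (hε : ‖ε‖ = 1)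
    (hfe : ∀ s : ℂ, 0 < s.re → s.re < 1 →
      completed (Real.sqrt N / (2 * Real.pi)) (fun _ : Fin 1 => (1 : ℝ))
          (fun _ => ((k : ℂ) - 1) / 2) F s =
        ε * (starRingEnd ℂ) (completed (Real.sqrt N / (2 * Real.pi))
          (fun _ : Fin 1 => (1 : ℝ)) (fun _ => ((k : ℂ) - 1) / 2) F
          (1 - (starRingEnd ℂ) s))) :
    ∃ C : ℝ, ∀ x : ℝ, 2 ≤ x → |S (acl k A σ) x - Real.log (Real.log x)| ≤ C := by
  have hN' : (0 : ℝ) < (N : ℝ) := by exact_mod_cast hN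
  obtain ⟨G, _, hG⟩ := entire_of_weight k hk N hN' (acl k A σ) F ε hS hε hfe
  exact formula_of k hk N.den N.den_pos _ F hS (orbit_of3 σ k (by omega) N hN A m hm hA hs G ε hG)

end Pool.Agent.H97.ICB
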